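import Pool.Agent.E8helper19.QC.Stm

/-! Project QC (helper19), part QC8e: decay of `(-Δ)^(n/2) φ` (assembly) -/

set_option autoImplicit false

open MeasureTheory Filter Topology SchwartzMap FourierTransform Laplacian
open scoped ContDiff ENNReal Real

namespace Pool.Agent.E8helper31.QC

open Pool.Agent.E8helper19.QC

noncomputable section

theorem weight_meas {n : ℕ} (m : ℕ) : Continuous fun x : E n => (1 + ‖x‖) ^ m := by
  fun_prop

theorem odd_case (n k : ℕ) (hn : n = 2 * k + 1) (φ ψ : 𝓢(E n, ℂ)) (hψ : IsLap k φ ψ)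
    (b : S_SUB) (c : S_SML) (d : S_LRG) :
    Integrable (fun x => (1 + ‖x‖) ^ (2 * k) * ‖FL n φ x‖) := by
  obtain ⟨hcont, -, hH, hsub⟩ := b n k φ ψ hn hψ
  obtain ⟨C₁, hC₁⟩ := c n (2 * k) ψ
  obtain ⟨C₂, hC₂⟩ := d n k φ ψ hψ
  -- the weighted integral of `ψ`
  have hψi : Integrable (fun x => (1 + ‖x‖) ^ (2 * k) * ‖ψ x‖) := by
    obtain ⟨h1, -⟩ := hC₁ 1 one_pos le_rfl
    obtain ⟨h2, -⟩ := hC₂ 1 le_rfl
    refine (h1.add h2).mono' ?_ (Filter.Eventually.of_forall fun x => ?_)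
    · exact ((weight_meas (2 * k)).mul ψ.continuous.norm).aestronglyMeasurable
    · have h3 : 0 ≤ (1 + ‖x‖) ^ (2 * k) := by positivity
      rw [Real.norm_of_nonneg (by positivity)]
      have h4 : ‖ψ x‖ ≤ ‖ψ x - Heat n 1 ψ x‖ + ‖Heat n 1 ψ x‖ := by
        have := norm_add_le (ψ x - Heat n 1 ψ x) (Heat n 1 ψ x)
        rwa [sub_add_cancel] at this
      calc (1 + ‖x‖) ^ (2 * k) * ‖ψ x‖ ≤
          (1 + ‖x‖) ^ (2 * k) * (‖ψ x - Heat n 1 ψ x‖ + ‖Heat n 1 ψ x‖) :=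
            mul_le_mul_of_nonneg_left h4 h3
        _ = _ := by simp only [Pi.add_apply]; ring
  set I₀ : ℝ := ∫ x, (1 + ‖x‖) ^ (2 * k) * ‖ψ x‖ with hI₀
  -- the integrand
  let f : ℝ → E n → ℝ≥0∞ := fun t x =>
    ENNReal.ofReal (t ^ (-(3 / 2) : ℝ)) *
      ENNReal.ofReal ((1 + ‖x‖) ^ (2 * k) * ‖ψ x - Heat n t ψ x‖)
  have hfm : AEMeasurable (Function.uncurry f) ((volume.restrict (Set.Ioi (0 : ℝ))).prod volume) := by
    have h1 : ContinuousOn (fun z : ℝ × E n =>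
        (1 + ‖z.2‖) ^ (2 * k) * ‖ψ z.2 - Heat n z.1 ψ z.2‖) (Set.Ioi 0 ×ˢ Set.univ) := by
      have h2 : ContinuousOn (fun z : ℝ × E n => ψ z.2) (Set.Ioi 0 ×ˢ Set.univ) :=
        (ψ.continuous.comp continuous_snd).continuousOn
      have h3 : ContinuousOn (fun z : ℝ × E n => (1 + ‖z.2‖) ^ (2 * k)) (Set.Ioi 0 ×ˢ Set.univ) :=
        ((weight_meas (2 * k)).comp continuous_snd).continuousOn
      exact h3.mul (h2.sub hH).norm
    have h4 : AEMeasurable (fun z : ℝ × E n =>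
        (1 + ‖z.2‖) ^ (2 * k) * ‖ψ z.2 - Heat n z.1 ψ z.2‖)
        ((volume.restrict (Set.Ioi (0 : ℝ))).prod volume) := by
      have h5 := h1.aemeasurable (μ := (volume : Measure ℝ).prod (volume : Measure (E n)))
        (measurableSet_Ioi.prod MeasurableSet.univ)
      rwa [← Measure.prod_restrict, Measure.restrict_univ] at h5
    have h6 : AEMeasurable (fun z : ℝ × E n => z.1 ^ (-(3 / 2) : ℝ))
        ((volume.restrict (Set.Ioi (0 : ℝ))).prod volume) := by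
      exact (Measurable.pow_const measurable_fst _).aemeasurable
    exact h6.ennreal_ofReal.mul h4.ennreal_ofReal
  -- the bound of the double integral
  have hdbl : ∫⁻ t in Set.Ioi (0 : ℝ), ∫⁻ x, f t x < ⊤ := by
    have hA : ∀ t ∈ Set.Ioc (0 : ℝ) 1, ∫⁻ x, f t x ≤ ENNReal.ofReal (C₁ * t ^ (-(1 / 2) : ℝ)) := by
      intro t ht
      obtain ⟨h1, h2⟩ := hC₁ t ht.1 ht.2
      have h3 : ∫⁻ x, f t x = ENNReal.ofReal (t ^ (-(3 / 2) : ℝ)) *
          ENNReal.ofReal (∫ x, (1 + ‖x‖) ^ (2 * k) * ‖ψ x - Heat n t ψ x‖) := by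
        rw [ofReal_integral_eq_lintegral_ofReal h1 (Filter.Eventually.of_forall fun x => by positivity)]
        exact lintegral_const_mul' _ _ ENNReal.ofReal_ne_top
      rw [h3, ← ENNReal.ofReal_mul (Real.rpow_nonneg ht.1.le _)]
      apply ENNReal.ofReal_le_ofReal
      calc t ^ (-(3 / 2) : ℝ) * ∫ x, (1 + ‖x‖) ^ (2 * k) * ‖ψ x - Heat n t ψ x‖ ≤
          t ^ (-(3 / 2) : ℝ) * (C₁ * t) := mul_le_mul_of_nonneg_left h2 (Real.rpow_nonneg ht.1.le _)
        _ = C₁ * t ^ (-(1 / 2) : ℝ) := by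
            have h4 : t ^ (-(1 / 2) : ℝ) = t ^ (-(3 / 2) : ℝ) * t := by
              have h5 := Real.rpow_add_one ht.1.ne' (-(3 / 2))
              rw [← h5]
              norm_num
            rw [h4]
            ring
    have hB : ∀ t ∈ Set.Ioi (1 : ℝ), ∫⁻ x, f t x ≤
        ENNReal.ofReal ((I₀ + C₂) * t ^ (-(3 / 2) : ℝ)) := by
      intro t ht
      have ht' : (1 : ℝ) < t := ht
      have ht0 : (0 : ℝ) < t := one_pos.trans ht'
      obtain ⟨h1, h2⟩ := hC₂ t ht'.le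
      have h3 : ∫⁻ x, f t x ≤ ENNReal.ofReal (t ^ (-(3 / 2) : ℝ)) *
          ENNReal.ofReal (∫ x, ((1 + ‖x‖) ^ (2 * k) * ‖ψ x‖ + (1 + ‖x‖) ^ (2 * k) * ‖Heat n t ψ x‖)) := by
        have h4 : Integrable (fun x => (1 + ‖x‖) ^ (2 * k) * ‖ψ x‖ +
            (1 + ‖x‖) ^ (2 * k) * ‖Heat n t ψ x‖) := hψi.add h1
        rw [ofReal_integral_eq_lintegral_ofReal h4
          (Filter.Eventually.of_forall fun x => by positivity)]
        rw [← lintegral_const_mul' _ _ ENNReal.ofReal_ne_top]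
        refine lintegral_mono fun x => ?_
        refine mul_le_mul_right (ENNReal.ofReal_le_ofReal ?_) _
        rw [← mul_add]
        exact mul_le_mul_of_nonneg_left (norm_sub_le _ _) (by positivity)
      refine h3.trans ?_
      rw [← ENNReal.ofReal_mul (Real.rpow_nonneg ht0.le _)]
      apply ENNReal.ofReal_le_ofReal
      rw [integral_add hψi h1, mul_comm]
      exact mul_le_mul_of_nonneg_right (by linarith) (Real.rpow_nonneg ht0.le _)
    have hsplit : Set.Ioi (0 : ℝ) = Set.Ioc 0 1 ∪ Set.Ioi 1 :=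
      (Set.Ioc_union_Ioi_eq_Ioi zero_le_one).symm
    have h1 : ∫⁻ t in Set.Ioi (0 : ℝ), ∫⁻ x, f t x ≤
        (∫⁻ t in Set.Ioc (0 : ℝ) 1, ∫⁻ x, f t x) + ∫⁻ t in Set.Ioi (1 : ℝ), ∫⁻ x, f t x := by
      rw [hsplit]
      exact lintegral_union_le _ _ _
    refine h1.trans_lt (ENNReal.add_lt_top.2 ⟨?_, ?_⟩)
    · refine (setLIntegral_mono' measurableSet_Ioc hA).trans_lt ?_
      have h2 : IntegrableOn (fun t : ℝ => C₁ * t ^ (-(1 / 2) : ℝ)) (Set.Ioc 0 1) := by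
        have h3 : IntervalIntegrable (fun t : ℝ => t ^ (-(1 / 2) : ℝ)) volume 0 1 :=
          intervalIntegral.intervalIntegrable_rpow' (by norm_num)
        rw [intervalIntegrable_iff_integrableOn_Ioc_of_le zero_le_one] at h3
        exact h3.const_mul C₁
      have h3 := h2.2
      rw [HasFiniteIntegral] at h3
      refine lt_of_le_of_lt (lintegral_mono fun t => ?_) h3
      rw [← ofReal_norm_eq_enorm]
      exact ENNReal.ofReal_le_ofReal (Real.le_norm_self _)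
    · refine (setLIntegral_mono' measurableSet_Ioi hB).trans_lt ?_
      have h2 : IntegrableOn (fun t : ℝ => (I₀ + C₂) * t ^ (-(3 / 2) : ℝ)) (Set.Ioi 1) :=
        (integrableOn_Ioi_rpow_of_lt (by norm_num) one_pos).const_mul _
      have h3 := h2.2
      rw [HasFiniteIntegral] at h3
      refine lt_of_le_of_lt (lintegral_mono fun t => ?_) h3
      rw [← ofReal_norm_eq_enorm]
      exact ENNReal.ofReal_le_ofReal (Real.le_norm_self _)
  -- Tonelli
  have hswap : ∫⁻ x, ∫⁻ t in Set.Ioi (0 : ℝ), f t x < ⊤ := by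
    rw [← lintegral_lintegral_swap hfm]
    exact hdbl
  refine ⟨((weight_meas (2 * k)).mul hcont.norm).aestronglyMeasurable, ?_⟩
  rw [HasFiniteIntegral]
  refine lt_of_le_of_lt (lintegral_mono (g := fun x => ENNReal.ofReal (1 / (2 * √π)) *
    ∫⁻ t in Set.Ioi (0 : ℝ), f t x) fun x => ?_) ?_
  · show ‖(1 + ‖x‖) ^ (2 * k) * ‖FL n φ x‖‖ₑ ≤ ENNReal.ofReal (1 / (2 * √π)) *
      ∫⁻ t in Set.Ioi (0 : ℝ), f t x
    have hw : 0 ≤ (1 + ‖x‖) ^ (2 * k) := by positivity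
    rw [hsub x, norm_mul, ← ofReal_norm_eq_enorm, Real.norm_of_nonneg (by positivity)]
    have h1 : ‖((1 / (2 * √π) : ℝ) : ℂ)‖ = 1 / (2 * √π) := by
      rw [Complex.norm_real, Real.norm_of_nonneg (by positivity)]
    rw [h1]
    have h2 : (1 + ‖x‖) ^ (2 * k) * (1 / (2 * √π) *
        ‖∫ t in Set.Ioi (0 : ℝ), ((t ^ (-(3 / 2) : ℝ) : ℝ) : ℂ) * (ψ x - Heat n t ψ x)‖) =
        1 / (2 * √π) * ((1 + ‖x‖) ^ (2 * k) *
        ‖∫ t in Set.Ioi (0 : ℝ), ((t ^ (-(3 / 2) : ℝ) : ℝ) : ℂ) * (ψ x - Heat n t ψ x)‖) := by ring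
    rw [h2, ENNReal.ofReal_mul (by positivity)]
    refine mul_le_mul_right ?_ _
    rw [ENNReal.ofReal_mul hw]
    have h3 : ENNReal.ofReal ‖∫ t in Set.Ioi (0 : ℝ),
        ((t ^ (-(3 / 2) : ℝ) : ℝ) : ℂ) * (ψ x - Heat n t ψ x)‖ ≤
        ∫⁻ t in Set.Ioi (0 : ℝ), ‖((t ^ (-(3 / 2) : ℝ) : ℝ) : ℂ) * (ψ x - Heat n t ψ x)‖ₑ := by
      rw [ofReal_norm_eq_enorm]
      exact enorm_integral_le_lintegral_enorm _
    refine (mul_le_mul_right h3 _).trans ?_
    rw [← lintegral_const_mul' _ _ ENNReal.ofReal_ne_top]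
    refine setLIntegral_mono' measurableSet_Ioi fun t ht => ?_
    have ht0 : (0 : ℝ) < t := ht
    show _ ≤ ENNReal.ofReal (t ^ (-(3 / 2) : ℝ)) *
      ENNReal.ofReal ((1 + ‖x‖) ^ (2 * k) * ‖ψ x - Heat n t ψ x‖)
    rw [← ofReal_norm_eq_enorm, norm_mul, Complex.norm_real,
      Real.norm_of_nonneg (Real.rpow_nonneg ht0.le _), ← ENNReal.ofReal_mul hw,
      ← ENNReal.ofReal_mul (Real.rpow_nonneg ht0.le _)]
    apply ENNReal.ofReal_le_ofReal
    apply le_of_eq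
    ring
  · rw [lintegral_const_mul' _ _ ENNReal.ofReal_ne_top]
    exact ENNReal.mul_lt_top ENNReal.ofReal_lt_top hswap

/-- **Decay of `(-Δ)^(n/2) φ`.** -/
theorem t_DEC (a : S_DECE) (b : S_SUB) (c : S_SML) (d : S_LRG) : S_DEC := by
  intro n φ hn
  rcases Nat.even_or_odd n with he | ⟨k, rfl⟩
  · exact a.2 n φ he
  · obtain ⟨ψ, hψ, -⟩ := a.1 (2 * k + 1) k φ
    obtain ⟨h1, h2, -, -⟩ := b (2 * k + 1) k φ ψ rfl hψ
    refine ⟨h1, h2, ?_⟩
    have h3 : 2 * k + 1 - 1 = 2 * k := by omega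
    rw [h3]
    exact odd_case _ k rfl φ ψ hψ b c d

end

end Pool.Agent.E8helper31.QC
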